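import Pool.Agent.Helper65.Stz.Basic

/-!
# Top levels: from pieces with `N0 ≤ b + 1` to all intervals

Dyadic decomposition of `[b + 1, b + N]` with geometric weights.
-/

set_option autoImplicit false

namespace Stz

open Finset

theorem h34_F_sq (A N : ℕ) [NeZero A] (I : Finset ℕ) (a : ℕ → ℕ → ℂ) (ha : nsq I N a ≤ 1)
    (z y : ZMod A) : ‖F A I N a z y‖ ^ 2 ≤ (I.card : ℝ) * N := by
  have h1 : ‖F A I N a z y‖ ≤ ∑ p ∈ I ×ˢ range N, ‖a p.1 p.2‖ := by
    unfold F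
    rw [← sum_product']
    refine (norm_sum_le _ _).trans (sum_le_sum fun p _ => ?_)
    rw [norm_mul, norm_ps, mul_one]
  have h2 : (∑ p ∈ I ×ˢ range N, ‖a p.1 p.2‖) ^ 2 ≤
      ((I ×ˢ range N).card : ℝ) * ∑ p ∈ I ×ˢ range N, ‖a p.1 p.2‖ ^ 2 :=
    sq_sum_le_card_mul_sum_sq
  have h3 : ∑ p ∈ I ×ˢ range N, ‖a p.1 p.2‖ ^ 2 ≤ 1 := by
    rw [sum_product]
    exact ha
  have h4 : ((I ×ˢ range N).card : ℝ) = (I.card : ℝ) * N := by
    rw [card_product, card_range]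
    push_cast
    ring
  calc ‖F A I N a z y‖ ^ 2 ≤ (∑ p ∈ I ×ˢ range N, ‖a p.1 p.2‖) ^ 2 :=
        pow_le_pow_left₀ (norm_nonneg _) h1 2
    _ ≤ ((I ×ˢ range N).card : ℝ) * ∑ p ∈ I ×ˢ range N, ‖a p.1 p.2‖ ^ 2 := h2
    _ ≤ ((I ×ˢ range N).card : ℝ) * 1 := mul_le_mul_of_nonneg_left h3 (by positivity)
    _ = (I.card : ℝ) * N := by rw [mul_one, h4]

theorem h34_lev_card (A : ℕ) [NeZero A] (I : Finset ℕ) (N : ℕ) (a : ℕ → ℕ → ℂ) (lam : ℝ) :
    ((lev A I N a lam).card : ℝ) ≤ (A : ℝ) ^ 2 := by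
  have h : (lev A I N a lam).card ≤ A ^ 2 := by
    calc (lev A I N a lam).card ≤ (univ : Finset (ZMod A × ZMod A)).card := card_le_univ _
      _ = A ^ 2 := by
        rw [card_univ, Fintype.card_prod, ZMod.card, sq]
  exact_mod_cast h

/-- the piece `2 ^ j ≤ n < 2 ^ (j + 1)` of `[b + 1, b + N]` -/
theorem h34_piece (b N j : ℕ)
    (hne : ((Icc (b + 1) (b + N)).filter fun n => Nat.log 2 n = j).Nonempty) :
    ∃ b' N0 : ℕ, 1 ≤ N0 ∧ N0 ≤ N ∧ N0 ≤ b' + 1 ∧ b' + 1 ≤ b + N ∧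
      2 ^ (Nat.log 2 (b + N) - j) * N0 ≤ 2 * N ∧
      (Icc (b + 1) (b + N)).filter (fun n => Nat.log 2 n = j) = Icc (b' + 1) (b' + N0) := by
  obtain ⟨n0, hn0⟩ := hne
  rw [mem_filter, mem_Icc] at hn0
  obtain ⟨⟨h1, h2⟩, h3⟩ := hn0
  have hn0 : n0 ≠ 0 := by omega
  have key : ∀ n : ℕ, n ≠ 0 → (Nat.log 2 n = j ↔ 2 ^ j ≤ n ∧ n < 2 ^ (j + 1)) := by
    intro n hn
    exact Nat.log_eq_iff (Or.inr ⟨by norm_num, hn⟩)
  have h4 := (key n0 hn0).mp h3
  have h5 : 2 ^ (j + 1) = 2 * 2 ^ j := by ring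
  have h6 : 1 ≤ 2 ^ j := Nat.one_le_two_pow
  have hJ : 2 ^ Nat.log 2 (b + N) ≤ b + N := Nat.pow_log_le_self 2 (by omega)
  have hjJ : j ≤ Nat.log 2 (b + N) := by
    rw [← h3]
    exact Nat.log_mono_right h2
  refine ⟨max (b + 1) (2 ^ j) - 1, min (b + N) (2 ^ (j + 1) - 1) + 1 - max (b + 1) (2 ^ j),
    ?_, ?_, ?_, ?_, ?_, ?_⟩
  · omega
  · omega
  · omega
  · omega
  · set J := Nat.log 2 (b + N) with hJd
    set M := min (b + N) (2 ^ (j + 1) - 1) + 1 - max (b + 1) (2 ^ j) with hM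
    have hMj : M ≤ 2 ^ j := by omega
    have hMN : M ≤ N := by omega
    have hsplit : 2 ^ (J - j) * 2 ^ j = 2 ^ J := by
      rw [← pow_add]; congr 1; omega
    rcases le_or_gt N (b + 1) with hc | hc
    · have h7 : 2 ^ J < 2 ^ (j + 2) := by
        have : 2 ^ (j + 2) = 2 * 2 ^ (j + 1) := by ring
        omega
      have h8 : J < j + 2 := (Nat.pow_lt_pow_iff_right (by norm_num)).mp h7
      have h9 : 2 ^ (J - j) ≤ 2 ^ 1 := Nat.pow_le_pow_right (by norm_num) (by omega)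
      calc 2 ^ (J - j) * M ≤ 2 ^ 1 * N := Nat.mul_le_mul h9 hMN
        _ = 2 * N := by ring
    · calc 2 ^ (J - j) * M ≤ 2 ^ (J - j) * 2 ^ j := Nat.mul_le_mul_left _ hMj
        _ = 2 ^ J := hsplit
        _ ≤ b + N := hJ
        _ ≤ 2 * N := by omega
  · ext n
    rw [mem_filter, mem_Icc, mem_Icc]
    constructor
    · rintro ⟨⟨g1, g2⟩, g3⟩
      have g4 := (key n (by omega)).mp g3
      omega
    · intro g
      have g1 : b + 1 ≤ n ∧ n ≤ b + N ∧ 2 ^ j ≤ n ∧ n < 2 ^ (j + 1) := by omega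
      exact ⟨⟨g1.1, g1.2.1⟩, (key n (by omega)).mpr ⟨g1.2.2.1, g1.2.2.2⟩⟩

/-- geometric weights -/
theorem h34_geom (r : ℝ) (hr : 0 ≤ r) (hr1 : r < 1) (J : ℕ) :
    ∑ j ∈ range (J + 1), r ^ (J - j) ≤ (1 - r)⁻¹ := by
  have h1 : ∑ j ∈ range (J + 1), r ^ (J - j) = ∑ k ∈ range (J + 1), r ^ k := by
    have := sum_range_reflect (fun k => r ^ k) (J + 1)
    simpa using this
  rw [h1]
  exact sum_le_hasSum _ (fun i _ => pow_nonneg hr i) (hasSum_geometric_of_lt_one hr hr1)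

theorem h34_calc (δ κ u q r s θ : ℝ) (hδ : 0 < δ) (hδ1 : δ ≤ 1) (hκ : κ = δ / 8) (hu0 : 0 < u)
    (hu : 2 * u + 2 * (κ * u) = 1) (hq : q = (2 : ℝ) ^ u) (hr : r = q ^ (-κ)) (hs : s = 1 - r)
    (hθ : 0 < θ) (N lam : ℝ) (k : ℕ) (hN : 1 ≤ N) (hlam : N ^ (1 - θ / 4) ≤ lam)
    (hNbig : 2 / s ^ 2 ≤ N ^ (θ / 2))
    (h : (lam * (s * r ^ k)) ^ 2 * 2 ^ k ≤ 2 * N ^ 2) :
    N ^ (1 - θ) ≤ lam * (s * r ^ k) ∧
      (N / (lam * (s * r ^ k))) ^ (4 - δ) ≤
        (s⁻¹ ^ 4 * (2 / s) ^ (3 * δ / 4)) * (N / lam) ^ (4 - δ / 4) * (q ^ (-(δ / 4))) ^ k := by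
  have hκ0 : 0 < κ := by rw [hκ]; positivity
  have hκ1 : κ ≤ 1 := by rw [hκ]; linarith
  have hq1 : 1 < q := by rw [hq]; exact Real.one_lt_rpow (by norm_num) hu0
  have hq0 : 0 < q := by linarith
  have hr0 : 0 < r := by rw [hr]; exact Real.rpow_pos_of_pos hq0 _
  have hr1 : r < 1 := by rw [hr]; exact Real.rpow_lt_one_of_one_lt_of_neg hq1 (by linarith)
  have hs0 : 0 < s := by rw [hs]; linarith
  have hs1 : s < 1 := by rw [hs]; linarith
  have hN0 : 0 < N := by linarith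
  have hlam0 : 0 < lam := lt_of_lt_of_le (Real.rpow_pos_of_pos hN0 _) hlam
  set Λ : ℝ := N / lam with hΛ
  have hΛ0 : 0 < Λ := div_pos hN0 hlam0
  set X : ℝ := q ^ k with hX
  have hX0 : 0 < X := pow_pos hq0 k
  -- `r ^ k = X ^ (-κ)`
  have hrk : r ^ k = X ^ (-κ) := by
    rw [hr, hX, ← Real.rpow_natCast, ← Real.rpow_mul hq0.le, ← Real.rpow_natCast,
      ← Real.rpow_mul hq0.le]
    ring_nf
  -- `(r ^ k) ^ 2 * 2 ^ k = X ^ 2`
  have h2 : (r ^ k) ^ 2 * 2 ^ k = X ^ 2 := by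
    have e1 : (2 : ℝ) = q ^ (2 + 2 * κ) := by
      rw [hq, ← Real.rpow_mul (by norm_num)]
      rw [show u * (2 + 2 * κ) = 1 by linarith, Real.rpow_one]
    have e2 : (2 : ℝ) ^ k = X ^ (2 + 2 * κ) := by
      conv_lhs => rw [e1]
      rw [hX, ← Real.rpow_natCast, ← Real.rpow_mul hq0.le, ← Real.rpow_natCast,
        ← Real.rpow_mul hq0.le]
      ring_nf
    rw [e2, hrk, ← Real.rpow_natCast, ← Real.rpow_mul hX0.le, ← Real.rpow_add hX0,
      ← Real.rpow_natCast]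
    congr 1
    push_cast
    ring
  have h3 : X ≤ 2 / s * Λ := by
    have e1 : (lam * s * X) ^ 2 ≤ (2 * N) ^ 2 := by
      calc (lam * s * X) ^ 2 = (lam * (s * r ^ k)) ^ 2 * 2 ^ k := by
            rw [mul_pow, ← h2]; ring
        _ ≤ 2 * N ^ 2 := h
        _ ≤ (2 * N) ^ 2 := by nlinarith [sq_nonneg N]
    have e2 : lam * s * X ≤ 2 * N := by
      exact (pow_le_pow_iff_left₀ (by positivity) (by positivity) two_ne_zero).mp e1
    rw [hΛ, div_mul_div_comm, le_div_iff₀ (by positivity)]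
    linarith
  have h2s : 1 ≤ 2 / s := by
    rw [le_div_iff₀ hs0]; linarith
  have hX1 : 1 ≤ X := one_le_pow₀ hq1.le
  have hrk0 : 0 < r ^ k := pow_pos hr0 k
  have hrki : (r ^ k)⁻¹ = X ^ κ := by
    rw [hrk, Real.rpow_neg hX0.le, inv_inv]
  have hΛθ : Λ ≤ N ^ (θ / 4) := by
    rw [hΛ, div_le_iff₀ hlam0]
    calc N = N ^ (θ / 4) * N ^ (1 - θ / 4) := by
          rw [← Real.rpow_add hN0]; ring_nf; rw [Real.rpow_one]
      _ ≤ N ^ (θ / 4) * lam := mul_le_mul_of_nonneg_left hlam (by positivity)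
  constructor
  · -- `X ^ κ ≤ X ≤ 2 / s * N ^ (θ / 4)`
    have e1 : X ^ κ ≤ 2 / s * N ^ (θ / 4) := by
      calc X ^ κ ≤ X ^ (1 : ℝ) := Real.rpow_le_rpow_of_exponent_le hX1 hκ1
        _ = X := Real.rpow_one X
        _ ≤ 2 / s * Λ := h3
        _ ≤ _ := mul_le_mul_of_nonneg_left hΛθ (by positivity)
    have e2 : N ^ (1 - θ) * X ^ κ ≤ lam * s := by
      calc N ^ (1 - θ) * X ^ κ ≤ N ^ (1 - θ) * (2 / s * N ^ (θ / 4)) :=
            mul_le_mul_of_nonneg_left e1 (by positivity)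
        _ = (2 / s ^ 2) * (N ^ (1 - θ) * N ^ (θ / 4)) * s := by
            field_simp
        _ ≤ N ^ (θ / 2) * (N ^ (1 - θ) * N ^ (θ / 4)) * s := by
            apply mul_le_mul_of_nonneg_right _ hs0.le
            exact mul_le_mul_of_nonneg_right hNbig (by positivity)
        _ = N ^ (1 - θ / 4) * s := by
            rw [← Real.rpow_add hN0, ← Real.rpow_add hN0]; ring_nf
        _ ≤ lam * s := mul_le_mul_of_nonneg_right hlam hs0.le
    have e3 : lam * (s * r ^ k) = lam * s / X ^ κ := by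
      rw [← hrki]; field_simp
    rw [e3, le_div_iff₀ (by positivity)]
    exact e2
  · have e1 : N / (lam * (s * r ^ k)) = Λ * s⁻¹ * X ^ κ := by
      rw [← hrki, hΛ]; field_simp
    rw [e1, Real.mul_rpow (by positivity) (by positivity), Real.mul_rpow (by positivity) (by positivity)]
    have e2 : s⁻¹ ^ (4 - δ) ≤ s⁻¹ ^ 4 := by
      rw [← Real.rpow_natCast]
      apply Real.rpow_le_rpow_of_exponent_le
      · exact (one_le_inv₀ hs0).mpr hs1.le
      · push_cast; linarith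
    have e3 : (X ^ κ) ^ (4 - δ) ≤ X ^ (δ / 2) := by
      rw [← Real.rpow_mul hX0.le]
      apply Real.rpow_le_rpow_of_exponent_le hX1
      rw [hκ]; nlinarith
    have e4 : X ^ (δ / 2) = X ^ (3 * δ / 4) * (q ^ (-(δ / 4))) ^ k := by
      have : (q ^ (-(δ / 4))) ^ k = X ^ (-(δ / 4)) := by
        rw [hX, ← Real.rpow_natCast, ← Real.rpow_mul hq0.le, ← Real.rpow_natCast,
          ← Real.rpow_mul hq0.le]
        ring_nf
      rw [this, ← Real.rpow_add hX0]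
      ring_nf
    have e5 : X ^ (3 * δ / 4) ≤ (2 / s) ^ (3 * δ / 4) * Λ ^ (3 * δ / 4) := by
      rw [← Real.mul_rpow (by positivity) hΛ0.le]
      exact Real.rpow_le_rpow hX0.le h3 (by positivity)
    calc Λ ^ (4 - δ) * s⁻¹ ^ (4 - δ) * (X ^ κ) ^ (4 - δ)
        ≤ Λ ^ (4 - δ) * s⁻¹ ^ 4 * X ^ (δ / 2) := by
          apply mul_le_mul _ e3 (by positivity) (by positivity)
          exact mul_le_mul_of_nonneg_left e2 (by positivity)
      _ = Λ ^ (4 - δ) * s⁻¹ ^ 4 * (X ^ (3 * δ / 4) * (q ^ (-(δ / 4))) ^ k) := by rw [e4]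
      _ ≤ Λ ^ (4 - δ) * s⁻¹ ^ 4 * (((2 / s) ^ (3 * δ / 4) * Λ ^ (3 * δ / 4)) *
            (q ^ (-(δ / 4))) ^ k) := by
          apply mul_le_mul_of_nonneg_left _ (by positivity)
          exact mul_le_mul_of_nonneg_right e5 (by positivity)
      _ = (s⁻¹ ^ 4 * (2 / s) ^ (3 * δ / 4)) * (Λ ^ (4 - δ) * Λ ^ (3 * δ / 4)) *
            (q ^ (-(δ / 4))) ^ k := by ring
      _ = _ := by
          rw [← Real.rpow_add hΛ0]
          ring_nf


theorem h34_good {N b b' A E : ℕ} (hN : 1 ≤ N) (hb' : b' + 1 ≤ b + N)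
    (h : Good ((N + b + 1) ^ (2 * E)) A) : Good ((N + b' + 1) ^ E) A := by
  intro k hk1 hk2
  apply h k hk1
  refine hk2.trans ?_
  calc (N + b' + 1) ^ E ≤ (2 * (N + b + 1)) ^ E := Nat.pow_le_pow_left (by omega) E
    _ ≤ ((N + b + 1) * (N + b + 1)) ^ E :=
        Nat.pow_le_pow_left (Nat.mul_le_mul_right _ (by omega)) E
    _ = (N + b + 1) ^ (2 * E) := by rw [← sq, ← pow_mul]

/-- C9: all intervals from the pieces -/
theorem top_of (E : ℕ) (H : ∃ θ : ℝ, 0 < θ ∧ θ < 1 / 2 ∧ ∃ δ : ℝ, 0 < δ ∧ ∃ C : ℝ, 0 < C ∧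
    ∀ (N N0 b A : ℕ) [NeZero A], 1 ≤ N0 → N0 ≤ N → N0 ≤ b + 1 → Good ((N + b + 1) ^ E) A →
    ∀ a : ℕ → ℕ → ℂ, nsq (Icc (b + 1) (b + N0)) N a ≤ 1 → ∀ lam : ℝ, (N : ℝ) ^ (1 - θ) ≤ lam →
    ((lev A (Icc (b + 1) (b + N0)) N a lam).card : ℝ) ≤
      C * (N : ℝ) ^ (-3 : ℝ) * (N / lam) ^ (4 - δ) * A ^ 2) :
    ∃ θ : ℝ, 0 < θ ∧ θ < 1 / 2 ∧ ∃ δ : ℝ, 0 < δ ∧ ∃ C : ℝ, 0 < C ∧
    ∀ (N b A : ℕ) [NeZero A], 1 ≤ N → Good ((N + b + 1) ^ (2 * E)) A →
    ∀ a : ℕ → ℕ → ℂ, nsq (Icc (b + 1) (b + N)) N a ≤ 1 → ∀ lam : ℝ, (N : ℝ) ^ (1 - θ) ≤ lam →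
    ((lev A (Icc (b + 1) (b + N)) N a lam).card : ℝ) ≤
      C * (N : ℝ) ^ (-3 : ℝ) * (N / lam) ^ (4 - δ) * A ^ 2 := by
  obtain ⟨θ, hθ, hθ', δ1, hδ1, C1, hC1, H⟩ := H
  obtain ⟨δ, hδd⟩ : ∃ δ : ℝ, δ = min δ1 1 := ⟨_, rfl⟩
  have hd0 : 0 < δ := by rw [hδd]; exact lt_min hδ1 one_pos
  have hd1 : δ ≤ 1 := by rw [hδd]; exact min_le_right _ _
  have hd2 : δ ≤ δ1 := by rw [hδd]; exact min_le_left _ _
  obtain ⟨κ, hκ⟩ : ∃ κ : ℝ, κ = δ / 8 := ⟨_, rfl⟩
  have hκ0 : 0 < κ := by rw [hκ]; positivity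
  obtain ⟨u, hu⟩ : ∃ u : ℝ, u = 1 / (2 * (1 + κ)) := ⟨_, rfl⟩
  have hu0 : 0 < u := by rw [hu]; positivity
  have hu1 : 2 * u + 2 * (κ * u) = 1 := by rw [hu]; field_simp
  obtain ⟨q, hq⟩ : ∃ q : ℝ, q = (2 : ℝ) ^ u := ⟨_, rfl⟩
  have hq1 : 1 < q := by rw [hq]; exact Real.one_lt_rpow (by norm_num) hu0
  have hq0 : 0 < q := by linarith
  obtain ⟨r, hr⟩ : ∃ r : ℝ, r = q ^ (-κ) := ⟨_, rfl⟩
  have hr0 : 0 < r := by rw [hr]; exact Real.rpow_pos_of_pos hq0 _
  have hr1 : r < 1 := by rw [hr]; exact Real.rpow_lt_one_of_one_lt_of_neg hq1 (by linarith)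
  obtain ⟨s, hs⟩ : ∃ s : ℝ, s = 1 - r := ⟨_, rfl⟩
  have hs0 : 0 < s := by rw [hs]; linarith
  obtain ⟨ρ, hρ⟩ : ∃ ρ : ℝ, ρ = q ^ (-(δ / 4)) := ⟨_, rfl⟩
  have hρ0 : 0 < ρ := by rw [hρ]; exact Real.rpow_pos_of_pos hq0 _
  have hρ1 : ρ < 1 := by
    rw [hρ]; exact Real.rpow_lt_one_of_one_lt_of_neg hq1 (by linarith)
  obtain ⟨Ns, hNs⟩ : ∃ Ns : ℝ, Ns = (2 / s ^ 2) ^ (2 / θ) := ⟨_, rfl⟩
  have hNs0 : 0 < Ns := by rw [hNs]; positivity
  obtain ⟨B, hB⟩ : ∃ B : ℝ, B = s⁻¹ ^ 4 * (2 / s) ^ (3 * δ / 4) := ⟨_, rfl⟩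
  have hB0 : 0 < B := by rw [hB]; positivity
  refine ⟨θ / 4, by positivity, by linarith, δ / 4, by positivity,
    max (C1 * B * (1 - ρ)⁻¹) (Ns ^ 3), lt_max_of_lt_right (by positivity), ?_⟩
  intro N b A _ hN hG a ha lam hlam
  have hN1 : (1 : ℝ) ≤ N := by exact_mod_cast hN
  have hN0 : (0 : ℝ) < N := by linarith
  have hlam0 : 0 < lam := lt_of_lt_of_le (Real.rpow_pos_of_pos hN0 _) hlam
  have hA : (0 : ℝ) < A := Nat.cast_pos.mpr (Nat.pos_of_ne_zero (NeZero.ne A))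
  have hΛ0 : 0 < (N : ℝ) / lam := div_pos hN0 hlam0
  -- small `N`
  rcases lt_or_ge (N : ℝ) Ns with hsm | hbig
  · rcases (lev A (Icc (b + 1) (b + N)) N a lam).eq_empty_or_nonempty with he | ⟨w, hw⟩
    · rw [he, card_empty, Nat.cast_zero]
      positivity
    · have h1 : lam ≤ N := by
        have h2 : lam ≤ ‖F A (Icc (b + 1) (b + N)) N a w.1 w.2‖ := by
          unfold lev at hw
          exact (mem_filter.mp hw).2
        have h3 := h34_F_sq A N (Icc (b + 1) (b + N)) a ha w.1 w.2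
        rw [Nat.card_Icc, show b + N + 1 - (b + 1) = N by omega] at h3
        have h4 : lam ^ 2 ≤ (N : ℝ) ^ 2 := by
          calc lam ^ 2 ≤ ‖F A (Icc (b + 1) (b + N)) N a w.1 w.2‖ ^ 2 :=
                pow_le_pow_left₀ hlam0.le h2 2
            _ ≤ (N : ℝ) * N := h3
            _ = (N : ℝ) ^ 2 := by ring
        exact (pow_le_pow_iff_left₀ hlam0.le hN0.le two_ne_zero).mp h4
      have h2 : (1 : ℝ) ≤ (N / lam) ^ (4 - δ / 4) :=
        Real.one_le_rpow (by rw [le_div_iff₀ hlam0]; linarith) (by linarith)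
      have h3 : (1 : ℝ) ≤ Ns ^ 3 * (N : ℝ) ^ (-3 : ℝ) := by
        rw [Real.rpow_neg hN0.le, show (3 : ℝ) = ((3 : ℕ) : ℝ) by norm_num, Real.rpow_natCast,
          ← div_eq_mul_inv, le_div_iff₀ (by positivity), one_mul]
        exact pow_le_pow_left₀ hN0.le hsm.le 3
      calc ((lev A (Icc (b + 1) (b + N)) N a lam).card : ℝ) ≤ (A : ℝ) ^ 2 :=
            h34_lev_card A _ N a lam
        _ = 1 * 1 * (A : ℝ) ^ 2 := by ring
        _ ≤ (Ns ^ 3 * (N : ℝ) ^ (-3 : ℝ)) * (N / lam) ^ (4 - δ / 4) * A ^ 2 := by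
            apply mul_le_mul_of_nonneg_right _ (by positivity)
            exact mul_le_mul h3 h2 zero_le_one (by positivity)
        _ ≤ _ := by
            apply mul_le_mul_of_nonneg_right _ (by positivity)
            apply mul_le_mul_of_nonneg_right _ (by positivity)
            apply mul_le_mul_of_nonneg_right _ (by positivity)
            exact le_max_right _ _
  · have hNbig : 2 / s ^ 2 ≤ (N : ℝ) ^ (θ / 2) := by
      calc 2 / s ^ 2 = ((2 / s ^ 2) ^ (2 / θ)) ^ (θ / 2) := by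
            rw [← Real.rpow_mul (by positivity), div_mul_div_comm, mul_comm 2 θ,
              div_self (by positivity), Real.rpow_one]
        _ ≤ (N : ℝ) ^ (θ / 2) := by
            rw [← hNs]
            exact Real.rpow_le_rpow hNs0.le hbig (by positivity)
    obtain ⟨J, hJ⟩ : ∃ J : ℕ, J = Nat.log 2 (b + N) := ⟨_, rfl⟩
    set I := Icc (b + 1) (b + N) with hI
    -- decomposition of `F`
    have hsum : ∀ z y : ZMod A, F A I N a z y =
        ∑ j ∈ range (J + 1), F A (I.filter fun n => Nat.log 2 n = j) N a z y := by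
      intro z y
      unfold F
      rw [sum_fiberwise_of_maps_to]
      intro n hn
      rw [hI, mem_Icc] at hn
      rw [mem_range, hJ]
      exact Nat.lt_succ_of_le (Nat.log_mono_right hn.2)
    have hsub : lev A I N a lam ⊆ (range (J + 1)).biUnion fun j =>
        lev A (I.filter fun n => Nat.log 2 n = j) N a (lam * (s * r ^ (J - j))) := by
      intro w hw
      have h2 : lam ≤ ‖F A I N a w.1 w.2‖ := by
        unfold lev at hw
        exact (mem_filter.mp hw).2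
      rw [mem_biUnion]
      by_contra hcon
      push Not at hcon
      have h3 : ∀ j ∈ range (J + 1), ‖F A (I.filter fun n => Nat.log 2 n = j) N a w.1 w.2‖ <
          lam * (s * r ^ (J - j)) := by
        intro j hj
        have h4 := hcon j hj
        unfold lev at h4
        rw [mem_filter] at h4
        push Not at h4
        exact h4 (mem_univ _)
      have h5 : ‖F A I N a w.1 w.2‖ < lam := by
        calc ‖F A I N a w.1 w.2‖ ≤ ∑ j ∈ range (J + 1),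
              ‖F A (I.filter fun n => Nat.log 2 n = j) N a w.1 w.2‖ := by
              rw [hsum]; exact norm_sum_le _ _
          _ < ∑ j ∈ range (J + 1), lam * (s * r ^ (J - j)) :=
              sum_lt_sum_of_nonempty ⟨0, mem_range.mpr (Nat.succ_pos J)⟩ h3
          _ = lam * (s * ∑ j ∈ range (J + 1), r ^ (J - j)) := by
              rw [mul_sum, mul_sum]
          _ ≤ lam * (s * (1 - r)⁻¹) := by
              apply mul_le_mul_of_nonneg_left _ hlam0.le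
              exact mul_le_mul_of_nonneg_left (h34_geom r hr0.le hr1 J) hs0.le
          _ = lam := by
              rw [← hs, mul_inv_cancel₀ hs0.ne', mul_one]
      linarith
    -- each piece
    have hpiece : ∀ j ∈ range (J + 1),
        ((lev A (I.filter fun n => Nat.log 2 n = j) N a (lam * (s * r ^ (J - j)))).card : ℝ) ≤
          C1 * B * (N : ℝ) ^ (-3 : ℝ) * (N / lam) ^ (4 - δ / 4) * A ^ 2 * ρ ^ (J - j) := by
      intro j hj
      set Ij := I.filter fun n => Nat.log 2 n = j with hIj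
      have hk0 : 0 < lam * (s * r ^ (J - j)) := by positivity
      rcases (lev A Ij N a (lam * (s * r ^ (J - j)))).eq_empty_or_nonempty with he | ⟨w, hw⟩
      · rw [he, card_empty, Nat.cast_zero]
        positivity
      have h2 : lam * (s * r ^ (J - j)) ≤ ‖F A Ij N a w.1 w.2‖ := by
        unfold lev at hw
        exact (mem_filter.mp hw).2
      have hne : Ij.Nonempty := by
        by_contra hem
        rw [not_nonempty_iff_eq_empty] at hem
        rw [hem] at h2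
        unfold F at h2
        rw [sum_empty, norm_zero] at h2
        linarith
      have ha' : nsq Ij N a ≤ 1 := by
        refine le_trans ?_ ha
        unfold nsq
        exact sum_le_sum_of_subset_of_nonneg (filter_subset _ _)
          fun n _ _ => sum_nonneg fun m _ => sq_nonneg _
      obtain ⟨b', N0, p1, p2, p3, p4, p5, p6⟩ := h34_piece b N j hne
      rw [← hJ] at p5
      have hcard : (Ij.card : ℝ) = N0 := by
        rw [hIj, hI, p6, Nat.card_Icc]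
        congr 1
        omega
      have h3 := h34_F_sq A N Ij a ha' w.1 w.2
      rw [hcard] at h3
      have p2r : (N0 : ℝ) ≤ N := by exact_mod_cast p2
      have p5r : (2 : ℝ) ^ (J - j) * N0 ≤ 2 * N := by exact_mod_cast p5
      have h4 : (lam * (s * r ^ (J - j))) ^ 2 ≤ (N0 : ℝ) * N :=
        (pow_le_pow_left₀ hk0.le h2 2).trans h3
      have h5 : (lam * (s * r ^ (J - j))) ^ 2 * 2 ^ (J - j) ≤ 2 * (N : ℝ) ^ 2 := by
        calc (lam * (s * r ^ (J - j))) ^ 2 * 2 ^ (J - j) ≤ ((N0 : ℝ) * N) * 2 ^ (J - j) :=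
              mul_le_mul_of_nonneg_right h4 (by positivity)
          _ = (2 ^ (J - j) * N0) * N := by ring
          _ ≤ (2 * N) * N := mul_le_mul_of_nonneg_right p5r hN0.le
          _ = 2 * (N : ℝ) ^ 2 := by ring
      have h6 : lam * (s * r ^ (J - j)) ≤ N := by
        have : (lam * (s * r ^ (J - j))) ^ 2 ≤ (N : ℝ) ^ 2 := by nlinarith
        exact (pow_le_pow_iff_left₀ hk0.le hN0.le two_ne_zero).mp this
      obtain ⟨c1, c2⟩ := h34_calc δ κ u q r s θ hd0 hd1 hκ hu0 hu1 hq hr hs hθ N lam (J - j) hN1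
        hlam hNbig h5
      have hG' : Good ((N + b' + 1) ^ E) A := h34_good hN p4 hG
      have h7 := H N N0 b' A p1 p2 p3 hG' a (by rw [← p6]; exact ha') _ c1
      rw [← p6] at h7
      calc ((lev A Ij N a (lam * (s * r ^ (J - j)))).card : ℝ)
          ≤ C1 * (N : ℝ) ^ (-3 : ℝ) * (N / (lam * (s * r ^ (J - j)))) ^ (4 - δ1) * A ^ 2 := h7
        _ ≤ C1 * (N : ℝ) ^ (-3 : ℝ) * (N / (lam * (s * r ^ (J - j)))) ^ (4 - δ) * A ^ 2 := by
            apply mul_le_mul_of_nonneg_right _ (by positivity)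
            apply mul_le_mul_of_nonneg_left _ (by positivity)
            apply Real.rpow_le_rpow_of_exponent_le
            · rw [le_div_iff₀ hk0]; linarith
            · linarith
        _ ≤ C1 * (N : ℝ) ^ (-3 : ℝ) * (B * (N / lam) ^ (4 - δ / 4) * ρ ^ (J - j)) * A ^ 2 := by
            apply mul_le_mul_of_nonneg_right _ (by positivity)
            apply mul_le_mul_of_nonneg_left _ (by positivity)
            rw [hB, hρ]
            exact c2
        _ = _ := by ring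
    calc ((lev A I N a lam).card : ℝ)
        ≤ (((range (J + 1)).biUnion fun j =>
          lev A (I.filter fun n => Nat.log 2 n = j) N a (lam * (s * r ^ (J - j)))).card : ℝ) := by
          exact_mod_cast card_le_card hsub
      _ ≤ ∑ j ∈ range (J + 1),
          ((lev A (I.filter fun n => Nat.log 2 n = j) N a
            (lam * (s * r ^ (J - j)))).card : ℝ) := by
          exact_mod_cast card_biUnion_le
      _ ≤ ∑ j ∈ range (J + 1),
          C1 * B * (N : ℝ) ^ (-3 : ℝ) * (N / lam) ^ (4 - δ / 4) * A ^ 2 * ρ ^ (J - j) :=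
          sum_le_sum hpiece
      _ = C1 * B * (N : ℝ) ^ (-3 : ℝ) * (N / lam) ^ (4 - δ / 4) * A ^ 2 *
          ∑ j ∈ range (J + 1), ρ ^ (J - j) := by rw [mul_sum]
      _ ≤ C1 * B * (N : ℝ) ^ (-3 : ℝ) * (N / lam) ^ (4 - δ / 4) * A ^ 2 * (1 - ρ)⁻¹ :=
          mul_le_mul_of_nonneg_left (h34_geom ρ hρ0.le hρ1 J) (by positivity)
      _ = (C1 * B * (1 - ρ)⁻¹) * (N : ℝ) ^ (-3 : ℝ) * (N / lam) ^ (4 - δ / 4) * A ^ 2 := by ring
      _ ≤ _ := by
          apply mul_le_mul_of_nonneg_right _ (by positivity)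
          apply mul_le_mul_of_nonneg_right _ (by positivity)
          apply mul_le_mul_of_nonneg_right _ (by positivity)
          exact le_max_left _ _

end Stz
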